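import Pool.Agent.Helper54.S4.Stmts

/-!
Module F5 of the `SPR_4` project: the flips of a half gate are one-sided.
-/

namespace Pool.Agent.Helper54.S4

open Finset Pool.Agent.Helper54.SP Pool.Agent.Helper54.Poly

/-- order of the labels in the second lifting -/
def f5K (i : ℕ) : ℕ := [5, 4, 0, 1, 2, 3].getD i 0

/-- value at three increasing labels and a fourth one -/
def f5v (t : Bool) (b c d i : ℕ) : Bool :=
  if d < i then l4 t b c d i else if c < i then !l4 t b c i d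
  else if b < i then l4 t b i c d else !l4 t i b c d

theorem f5_pt_lt {j a b : ℕ} (h : a < b) : pt j a < pt j b := by
  unfold pt; omega

theorem f5_ptN {Γ : List Gt} {j a : ℕ} (hj : j < 4 * Γ.length) (ha : a < 6) :
    pt j a < N4 Γ := by
  unfold pt N4; omega

/-- value of the first lifting at three increasing labels and a fourth one -/
theorem f5_in (h2 : ST_AL4) (h5 : ST_GI) (Γ : List Gt) (nw j : ℕ) (hj : j < 4 * Γ.length)
    (b c d i : ℕ) (hbc : b < c) (hcd : c < d) (hd : d < 6) (hi : i < 6) (hib : i ≠ b)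
    (hic : i ≠ c) (hid : i ≠ d) :
    ch4 Γ nw [pt j b, pt j c, pt j d, pt j i] = f5v (tj j) b c d i := by
  obtain ⟨-, e1, e2, e3, e4⟩ := h2 (c4 Γ nw) 0
  unfold f5v
  by_cases k1 : d < i
  · rw [if_pos k1]
    exact h5 Γ nw j b c d i hj hbc hcd k1 hi
  · rw [if_neg k1]
    by_cases k2 : c < i
    · rw [if_pos k2]
      have k3 : i < d := by omega
      have := h5 Γ nw j b c i d hj hbc k2 k3 hd
      unfold ch4 at this ⊢
      rw [e1 _ _ _ _ (f5_pt_lt hbc) (f5_pt_lt k2) (f5_pt_lt k3)] at this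
      rw [e4 _ _ _ _ (f5_pt_lt hbc) (f5_pt_lt hcd) (f5_pt_lt k2) (f5_pt_lt k3), this]
    · rw [if_neg k2]
      have k3 : i < c := by omega
      by_cases k4 : b < i
      · rw [if_pos k4]
        have := h5 Γ nw j b i c d hj k4 k3 hcd hd
        unfold ch4 at this ⊢
        rw [e1 _ _ _ _ (f5_pt_lt k4) (f5_pt_lt k3) (f5_pt_lt hcd)] at this
        rw [e3 _ _ _ _ (f5_pt_lt hbc) (f5_pt_lt hcd) (f5_pt_lt k4) (f5_pt_lt k3), this]
      · rw [if_neg k4]
        have k5 : i < b := by omega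
        have := h5 Γ nw j i b c d hj k5 hbc hcd hd
        unfold ch4 at this ⊢
        rw [e1 _ _ _ _ (f5_pt_lt k5) (f5_pt_lt hbc) (f5_pt_lt hcd)] at this
        rw [e2 _ _ _ _ (f5_pt_lt hbc) (f5_pt_lt hcd) (f5_pt_lt k5), this]

/-- keys of the second lifting inside a half gate -/
theorem f5_key (h1 : ST_PT4) (h7 : ST_RB4) (Γ : List Gt) (nw : ℕ) (hw : WF Γ nw) (j : ℕ)
    (hj : j < 4 * Γ.length) (a b : ℕ) (ha : a < 6) (hb : b < 6) :
    rb Γ nw (pt j a) < rb Γ nw (pt j b) ↔ f5K a < f5K b := by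
  obtain ⟨g1, g2, g3, g4⟩ := h1.1 j a ha
  obtain ⟨g5, g6, g7, g8⟩ := h1.1 j b hb
  have := (h7 Γ nw hw).2.2.2.2.2.2 (pt j a) (pt j b) g4 g8 (f5_ptN hj ha) (f5_ptN hj hb)
    (by rw [g1, g5])
  rw [g2, g6] at this
  exact this

/-- an index outside or inside the half gate -/
theorem f5_cases (h1 : ST_PT4) (Γ : List Gt) (j : ℕ) (x : ℕ) (hx : x < N4 Γ + 2) :
    x = N4 Γ + 1 ∨ (x ≤ N4 Γ ∧ (x = N4 Γ ∨ gr x ≠ j + 1)) ∨
      ∃ i, i < 6 ∧ x = pt j i := by
  by_cases k1 : x = N4 Γ + 1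
  · exact Or.inl k1
  · by_cases k2 : x = N4 Γ ∨ gr x ≠ j + 1
    · exact Or.inr (Or.inl ⟨by omega, k2⟩)
    · right; right
      push Not at k2
      obtain ⟨k3, k4⟩ := k2
      have k5 : 3 ≤ x := by
        by_contra hc
        have := h1.2.2.2.2.2.1 x (by omega)
        omega
      obtain ⟨k6, k7, k8⟩ := h1.2.1 x k5
      refine ⟨la x, k7, ?_⟩
      rw [k4] at k6
      exact k6

/-- the value of the second lifting -/
theorem f5_val (h1 : ST_PT4) (h2 : ST_AL4) (h3 : ST_EV5) (h4 : ST_GO4) (h5 : ST_GI)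
    (h7 : ST_RB4) (Γ : List Gt) (nw : ℕ) (hw : WF Γ nw) (j : ℕ) (hj : j < 4 * Γ.length)
    (a b c d : ℕ) (hab : a < b) (hbc : b < c) (hcd : c < d) (hd : d < 6)
    (hT : (f5K b < f5K a ∧ f5K c < f5K a ∧ f5K d < f5K a ∧ tb4 (tj j) b c d =
        l4 (tj j) a b c d ∧ ∀ i, i < 6 → i ≠ a → i ≠ b → i ≠ c → i ≠ d → f5K i < f5K a →
          f5v (tj j) b c d i = l4 (tj j) a b c d) ∨
      (f5K a < f5K d ∧ f5K b < f5K d ∧ f5K c < f5K d ∧ (!tb4 (tj j) a b c) =
        l4 (tj j) a b c d ∧ ∀ i, i < 6 → i ≠ a → i ≠ b → i ≠ c → i ≠ d → f5K d < f5K i))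
    (x : ℕ) (hx : x < N4 Γ + 2) (xa : x ≠ pt j a) (xb : x ≠ pt j b) (xc : x ≠ pt j c)
    (xd : x ≠ pt j d) :
    ch5 Γ nw [pt j a, pt j b, pt j c, pt j d, x] = l4 (tj j) a b c d := by
  have hK := f5_key h1 h7 Γ nw hw j hj
  have hN : ∀ i, i < 6 → pt j i < N4 Γ := fun i hi => f5_ptN hj hi
  obtain ⟨r1, r2, r3, r4, r5, r6, r7⟩ := h7 Γ nw hw
  obtain ⟨v1, v2, v3, v4, v5⟩ := h3 Γ nw (pt j a) (pt j b) (pt j c) (pt j d) x
  by_cases hbig : rb Γ nw (pt j a) < rb Γ nw x ∧ rb Γ nw (pt j b) < rb Γ nw x ∧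
      rb Γ nw (pt j c) < rb Γ nw x ∧ rb Γ nw (pt j d) < rb Γ nw x
  · rw [v5 hbig.1 hbig.2.1 hbig.2.2.1 hbig.2.2.2]
    exact h5 Γ nw j a b c d hj hab hbc hcd hd
  · have hne : ∀ i, i < 6 → x ≠ pt j i → rb Γ nw x ≠ rb Γ nw (pt j i) := by
      intro i hi hxi he
      exact hxi (r1 x (pt j i) (by omega) (by have := hN i hi; omega) he)
    have hx1 : x ≠ N4 Γ + 1 := by
      intro he
      apply hbig
      rw [he]
      have := hN a (by omega)
      have := hN b (by omega)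
      have := hN c (by omega)
      have := hN d (by omega)
      exact ⟨r2 _ (by omega), r2 _ (by omega), r2 _ (by omega), r2 _ (by omega)⟩
    rcases hT with ⟨t1, t2, t3, t4, t5⟩ | ⟨t1, t2, t3, t4, t5⟩
    · have u1 := (hK b a (by omega) (by omega)).2 t1
      have u2 := (hK c a (by omega) (by omega)).2 t2
      have u3 := (hK d a (by omega) (by omega)).2 t3
      have u4 := hne a (by omega) xa
      have u5 : rb Γ nw x < rb Γ nw (pt j a) := by
        by_contra hc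
        apply hbig
        refine ⟨by omega, by omega, by omega, by omega⟩
      rw [v1 u1 u2 u3 u5]
      rcases f5_cases h1 Γ j x hx with k | ⟨k1, k2⟩ | ⟨i, k1, k2⟩
      · exact absurd k hx1
      · rw [h4 Γ nw j b c d x hj hbc hcd hd k1 k2]
        exact t4
      · rw [k2, f5_in h2 h5 Γ nw j hj b c d i hbc hcd hd k1 (fun h => xb (by rw [k2, h]))
          (fun h => xc (by rw [k2, h])) (fun h => xd (by rw [k2, h]))]
        refine t5 i k1 (fun h => xa (by rw [k2, h])) (fun h => xb (by rw [k2, h]))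
          (fun h => xc (by rw [k2, h])) (fun h => xd (by rw [k2, h])) ?_
        rw [k2] at u5
        exact (hK i a k1 (by omega)).1 u5
    · have u1 := (hK a d (by omega) (by omega)).2 t1
      have u2 := (hK b d (by omega) (by omega)).2 t2
      have u3 := (hK c d (by omega) (by omega)).2 t3
      have u4 := hne d (by omega) xd
      have u5 : rb Γ nw x < rb Γ nw (pt j d) := by
        by_contra hc
        apply hbig
        refine ⟨by omega, by omega, by omega, by omega⟩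
      rw [v4 u1 u2 u3 u5]
      rcases f5_cases h1 Γ j x hx with k | ⟨k1, k2⟩ | ⟨i, k1, k2⟩
      · exact absurd k hx1
      · rw [h4 Γ nw j a b c x hj hab hbc (by omega) k1 k2]
        exact t4
      · exfalso
        have := t5 i k1 (fun h => xa (by rw [k2, h])) (fun h => xb (by rw [k2, h]))
          (fun h => xc (by rw [k2, h])) (fun h => xd (by rw [k2, h]))
        rw [k2] at u5
        have := (hK i d k1 (by omega)).1 u5
        omega

/-- the finite check -/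
theorem f5_dec : ∀ t : Bool, ∀ T ∈ FL t, T.1 < T.2.1 ∧ T.2.1 < T.2.2.1 ∧ T.2.2.1 < T.2.2.2 ∧
    T.2.2.2 < 6 ∧
    ((f5K T.2.1 < f5K T.1 ∧ f5K T.2.2.1 < f5K T.1 ∧ f5K T.2.2.2 < f5K T.1 ∧
      tb4 t T.2.1 T.2.2.1 T.2.2.2 = l4 t T.1 T.2.1 T.2.2.1 T.2.2.2 ∧
      ∀ i, i < 6 → i ≠ T.1 → i ≠ T.2.1 → i ≠ T.2.2.1 → i ≠ T.2.2.2 → f5K i < f5K T.1 →
        f5v t T.2.1 T.2.2.1 T.2.2.2 i = l4 t T.1 T.2.1 T.2.2.1 T.2.2.2) ∨
    (f5K T.1 < f5K T.2.2.2 ∧ f5K T.2.1 < f5K T.2.2.2 ∧ f5K T.2.2.1 < f5K T.2.2.2 ∧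
      (!tb4 t T.1 T.2.1 T.2.2.1) = l4 t T.1 T.2.1 T.2.2.1 T.2.2.2 ∧
      ∀ i, i < 6 → i ≠ T.1 → i ≠ T.2.1 → i ≠ T.2.2.1 → i ≠ T.2.2.2 →
        f5K T.2.2.2 < f5K i)) := by
  intro t T hT
  cases t
  · have h : T = (1, 2, 3, 5) ∨ T = (1, 2, 3, 4) := by
      simpa [FL] using hT
    rcases h with rfl | rfl
    · refine ⟨by decide, by decide, by decide, by decide, Or.inl ⟨by decide, by decide,
        by decide, by decide, ?_⟩⟩
      intro i hi
      interval_cases i <;> decide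
    · refine ⟨by decide, by decide, by decide, by decide, Or.inl ⟨by decide, by decide,
        by decide, by decide, ?_⟩⟩
      intro i hi
      interval_cases i <;> decide
  · have h : T = (0, 1, 2, 3) ∨ T = (0, 1, 3, 5) ∨ T = (0, 1, 4, 5) ∨ T = (1, 3, 4, 5) ∨
        T = (2, 3, 4, 5) := by
      simpa [FL] using hT
    rcases h with rfl | rfl | rfl | rfl | rfl
    · refine ⟨by decide, by decide, by decide, by decide, Or.inl ⟨by decide, by decide,
        by decide, by decide, ?_⟩⟩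
      intro i hi
      interval_cases i <;> decide
    · refine ⟨by decide, by decide, by decide, by decide, Or.inl ⟨by decide, by decide,
        by decide, by decide, ?_⟩⟩
      intro i hi
      interval_cases i <;> decide
    · refine ⟨by decide, by decide, by decide, by decide, Or.inl ⟨by decide, by decide,
        by decide, by decide, ?_⟩⟩
      intro i hi
      interval_cases i <;> decide
    · refine ⟨by decide, by decide, by decide, by decide, Or.inl ⟨by decide, by decide,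
        by decide, by decide, ?_⟩⟩
      intro i hi
      interval_cases i <;> decide
    · refine ⟨by decide, by decide, by decide, by decide, Or.inr ⟨by decide, by decide,
        by decide, by decide, ?_⟩⟩
      intro i hi
      interval_cases i <;> decide

theorem st_F5 (h1 : ST_PT4) (h2 : ST_AL4) (h3 : ST_EV5) (h4 : ST_GO4) (h5 : ST_GI)
    (_h6 : ST_LV4) (h7 : ST_RB4) : ST_F5 := by
  intro Γ nw hw j hj T hT x y hx hy hxf hyf
  obtain ⟨d1, d2, d3, d4, d5⟩ := f5_dec (tj j) T hT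
  simp only [List.mem_cons, List.not_mem_nil, or_false, not_or] at hxf hyf
  have e1 := f5_val h1 h2 h3 h4 h5 h7 Γ nw hw j hj _ _ _ _ d1 d2 d3 d4 d5 x hx hxf.1 hxf.2.1
    hxf.2.2.1 hxf.2.2.2
  have e2 := f5_val h1 h2 h3 h4 h5 h7 Γ nw hw j hj _ _ _ _ d1 d2 d3 d4 d5 y hy hyf.1 hyf.2.1
    hyf.2.2.1 hyf.2.2.2
  show ch5 Γ nw [pt j T.1, pt j T.2.1, pt j T.2.2.1, pt j T.2.2.2, x] =
    ch5 Γ nw [pt j T.1, pt j T.2.1, pt j T.2.2.1, pt j T.2.2.2, y]
  rw [e1, e2]

end Pool.Agent.Helper54.S4
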